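import Mathlib
import Pool.Agent.Lib.MP_a33257_co.Asymp

namespace Pool.Agent.Results.MP_a33257_co.NoSharpThreshold

open Finset MeasureTheory ProbabilityTheory unitInterval SimpleGraph Filter Topology
open Pool.Agent.Lib.MP_a33257_co

/-- Maker has a winning strategy in the `(1:b)` vertex Maker-Breaker `K_k`-game on `G`
(Maker moves first and nothing is claimed at the start). -/
def MakerWins {V : Type} [Fintype V] [DecidableEq V] (b k : ℕ) (G : SimpleGraph V) : Prop :=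
  MakerWinsFrom G k b ∅ ∅

/-- Breaker has a winning strategy in the `(1:b)` vertex Maker-Breaker `K_k`-game on `G`
(Maker moves first and nothing is claimed at the start). -/
def BreakerWins {V : Type} [Fintype V] [DecidableEq V] (b k : ℕ) (G : SimpleGraph V) : Prop :=
  BreakerWinsFrom G k b ∅ ∅

/-- `G(n, p n)` has the property `Q` with high probability. -/
def Whp (p : ℕ → I) (Q : ∀ n : ℕ, SimpleGraph (Fin n) → Prop) : Prop :=
  Tendsto (fun n : ℕ => (binomialRandom (Fin n) (p n)).real {G | Q n G}) atTop (𝓝 1)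

/-- The `(1:b)` vertex Maker-Breaker `K_k`-game on `G(n,p)` has a sharp threshold at `pstar`. -/
def SharpThreshold (b k : ℕ) (pstar : ℕ → ℝ) : Prop :=
  ∀ ε : ℝ, 0 < ε →
    (∀ p : ℕ → I, (∀ᶠ n in atTop, (1 + ε) * pstar n ≤ (p n : ℝ)) →
      Whp p (fun _ G => MakerWins b k G)) ∧
    (∀ p : ℕ → I, (∀ᶠ n in atTop, (p n : ℝ) ≤ (1 - ε) * pstar n) →
      Whp p (fun _ G => BreakerWins b k G))

theorem exp_half_le : Real.exp (1 / 2) ≤ 2 := by
  have h1 : Real.exp (1 / 2) * Real.exp (1 / 2) = Real.exp 1 := by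
    rw [← Real.exp_add]; norm_num
  have h2 := Real.exp_one_lt_d9
  have h3 := Real.exp_pos (1 / 2)
  nlinarith

theorem pow_le_exp (k : ℕ) (hk : 1 ≤ k) :
    (1 + 1 / (k:ℝ)) ^ (k.choose 2) ≤ (Real.exp (1 / 2)) ^ (k - 1) := by
  have hk0 : (0:ℝ) < k := by exact_mod_cast hk
  have h1 : 1 + 1 / (k:ℝ) ≤ Real.exp (1 / k) := by
    have := Real.add_one_le_exp (1 / (k:ℝ))
    linarith
  calc (1 + 1 / (k:ℝ)) ^ (k.choose 2) ≤ (Real.exp (1 / k)) ^ (k.choose 2) :=
        pow_le_pow_left₀ (by positivity) h1 _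
    _ = Real.exp ((k.choose 2 : ℕ) * (1 / k)) := by rw [← Real.exp_nat_mul]
    _ = Real.exp (((k - 1 : ℕ) : ℝ) * (1 / 2)) := by
        congr 1
        have h2 : ((k.choose 2 : ℕ) : ℝ) = k * (k - 1) / 2 := Nat.cast_choose_two ℝ k
        rw [h2]
        push_cast [Nat.cast_sub hk]
        field_simp
    _ = (Real.exp (1 / 2)) ^ (k - 1) := by rw [← Real.exp_nat_mul]

theorem fact_bound (k : ℕ) (hk : 11 ≤ k) :
    (Real.exp (1 / 2)) ^ (k - 1) * 2 ^ (k - 1) * 8 ≤ ((k - 1).factorial : ℝ) := by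
  obtain ⟨m, rfl⟩ : ∃ m, k = m + 11 := ⟨k - 11, by omega⟩
  have e : m + 11 - 1 = m + 10 := by omega
  rw [e]
  clear e hk
  induction m with
  | zero =>
    have h1 : (Real.exp (1 / 2)) ^ 2 = Real.exp 1 := by
      rw [← Real.exp_nat_mul]; norm_num
    have h2 := Real.exp_one_lt_d9
    have h3 := Real.exp_pos 1
    have h4 : (Real.exp (1 / 2)) ^ (0 + 10) = (Real.exp 1) ^ 5 := by
      rw [← h1, ← pow_mul]
    rw [h4]
    have h5 : (Real.exp 1) ^ 5 ≤ (3:ℝ) ^ 5 := pow_le_pow_left₀ h3.le (by linarith) _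
    have h6 : ((0 + 10).factorial : ℝ) = 3628800 := by
      norm_num [Nat.factorial]
    rw [h6]
    have h7 : (2:ℝ) ^ (0 + 10) = 1024 := by norm_num
    rw [h7]
    linarith
  | succ m ih =>
    have h1 := exp_half_le
    have h2 := Real.exp_pos (1 / 2)
    have e : m + 1 + 10 = (m + 10) + 1 := by ring
    rw [e, Nat.factorial_succ, pow_succ, pow_succ]
    push_cast
    have h3 : (0:ℝ) ≤ m := Nat.cast_nonneg m
    calc Real.exp (1 / 2) ^ (m + 10) * Real.exp (1 / 2) * (2 ^ (m + 10) * 2) * 8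
        = (Real.exp (1 / 2) * 2) * (Real.exp (1 / 2) ^ (m + 10) * 2 ^ (m + 10) * 8) := by ring
      _ ≤ ((m:ℝ) + 10 + 1) * ((m + 10).factorial : ℝ) := by
          apply mul_le_mul _ ih (by positivity) (by positivity)
          nlinarith

theorem const_ok (k : ℕ) (hk : 10 ≤ k) :
    (1 + 1 / (k:ℝ)) ^ (k.choose 2) * 2 ^ (k - 1) / ((k - 1).factorial : ℝ) ≤ 1 / 8 := by
  rcases hk.eq_or_lt with rfl | hk
  · have h1 : (10:ℕ).choose 2 = 45 := by decide
    have h2 : ((10 - 1).factorial : ℝ) = 362880 := by norm_num [Nat.factorial]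
    rw [h1, h2]
    norm_num
  · have h1 := pow_le_exp k (by omega)
    have h2 := fact_bound k hk
    have h3 : (0:ℝ) < ((k - 1).factorial : ℝ) := by exact_mod_cast Nat.factorial_pos _
    rw [div_le_iff₀ h3]
    have h4 : (1 + 1 / (k:ℝ)) ^ (k.choose 2) * 2 ^ (k - 1) ≤
        (Real.exp (1 / 2)) ^ (k - 1) * 2 ^ (k - 1) :=
      mul_le_mul_of_nonneg_right h1 (by positivity)
    linarith

/-- If the complementary event has probability tending to `0`, the event holds whp. -/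
theorem whp_of_compl (p : ℕ → I) (Q : ∀ n : ℕ, SimpleGraph (Fin n) → Prop)
    (h : Tendsto (fun n : ℕ => (binomialRandom (Fin n) (p n)).real {G | ¬ Q n G}) atTop (𝓝 0)) :
    Whp p Q := by
  unfold Whp
  have h1 : Tendsto (fun n : ℕ => 1 - (binomialRandom (Fin n) (p n)).real {G | ¬ Q n G}) atTop
      (𝓝 1) := by
    simpa using h.const_sub 1
  apply tendsto_of_tendsto_of_tendsto_of_le_of_le h1 tendsto_const_nhds
  · intro n
    have h2 := measureReal_union_le (μ := binomialRandom (Fin n) (p n)) {G | Q n G} {G | ¬ Q n G}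
    have h3 : {G : SimpleGraph (Fin n) | Q n G} ∪ {G | ¬ Q n G} = Set.univ := by
      ext G
      exact iff_of_true (em _) trivial
    rw [h3, probReal_univ] at h2
    show 1 - (binomialRandom (Fin n) (p n)).real {G | ¬ Q n G} ≤ _
    linarith
  · intro n
    exact measureReal_le_one

theorem breaker_wins {b k : ℕ} (hb : 1 ≤ b) (hk : 10 ≤ k) (p : ℕ → I)
    (hp : ∀ᶠ n : ℕ in atTop, (p n : ℝ) ≤ (1 + 1 / (k:ℝ)) * (n : ℝ) ^ (-(2:ℝ) / k)) :
    Whp p (fun _ G => BreakerWins b k G) := by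
  apply whp_of_compl
  have hc : (1:ℝ) ≤ 1 + 1 / (k:ℝ) := by
    have : (0:ℝ) ≤ 1 / (k:ℝ) := by positivity
    linarith
  exact breaker_whp hk hb hc (const_ok k hk) p hp

theorem no_sharp {b k : ℕ} (hb : 1 ≤ b) (hk : 10 ≤ k) (pstar : ℕ → ℝ)
    (hp : ∀ᶠ n : ℕ in atTop, pstar n ≤ (1 + 1 / (2 * (k:ℝ))) * (n : ℝ) ^ (-(2:ℝ) / k)) :
    ¬ SharpThreshold b k pstar := by
  intro hs
  have hk0 : (0:ℝ) < k := by
    have : 0 < k := by omega
    exact_mod_cast this
  have hk10 : (10:ℝ) ≤ k := by exact_mod_cast hk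
  -- the number `ε`
  set ε : ℝ := 1 / (4 * (k:ℝ)) with hε
  have hε0 : 0 < ε := by positivity
  have hle : (1 + ε) * (1 + 1 / (2 * (k:ℝ))) ≤ 1 + 1 / (k:ℝ) := by
    rw [hε]
    have h1 : (1 + 1 / (4 * (k:ℝ))) * (1 + 1 / (2 * (k:ℝ))) =
        1 + (3 / 4) * (1 / k) + (1 / 8) * (1 / k) * (1 / k) := by
      field_simp
      ring
    rw [h1]
    have h2 : 1 / (k:ℝ) ≤ 1 := by
      rw [div_le_one hk0]; linarith
    have h3 : 0 < 1 / (k:ℝ) := by positivity
    nlinarith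
  -- the edge probability
  let p : ℕ → I := fun n =>
    Set.projIcc (0:ℝ) 1 zero_le_one ((1 + ε) * pstar n)
  have hpow : Tendsto (fun n : ℕ => (1 + 1 / (k:ℝ)) * (n : ℝ) ^ (-(2:ℝ) / k)) atTop (𝓝 0) := by
    have h1 : Tendsto (fun n : ℕ => (n : ℝ) ^ (-((2:ℝ) / k))) atTop (𝓝 0) :=
      (tendsto_rpow_neg_atTop (by positivity)).comp tendsto_natCast_atTop_atTop
    have h2 := h1.const_mul (1 + 1 / (k:ℝ))
    rw [mul_zero] at h2
    simpa only [neg_div] using h2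
  have hnn : ∀ n : ℕ, 0 ≤ (1 + 1 / (k:ℝ)) * (n : ℝ) ^ (-(2:ℝ) / k) := by
    intro n; positivity
  have hle2 : ∀ᶠ n : ℕ in atTop,
      (1 + ε) * pstar n ≤ (1 + 1 / (k:ℝ)) * (n : ℝ) ^ (-(2:ℝ) / k) := by
    filter_upwards [hp] with n hn
    have h0 : (0:ℝ) ≤ (n : ℝ) ^ (-(2:ℝ) / k) := by positivity
    calc (1 + ε) * pstar n
        ≤ (1 + ε) * ((1 + 1 / (2 * (k:ℝ))) * (n : ℝ) ^ (-(2:ℝ) / k)) :=
          mul_le_mul_of_nonneg_left hn (by positivity)
      _ = ((1 + ε) * (1 + 1 / (2 * (k:ℝ)))) * (n : ℝ) ^ (-(2:ℝ) / k) := by ring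
      _ ≤ _ := mul_le_mul_of_nonneg_right hle h0
  have hlt1 := hpow.eventually (gt_mem_nhds (show (0:ℝ) < 1 by norm_num))
  have hM := (hs ε hε0).1 p (by
    filter_upwards [hle2, hlt1] with n h1 h2
    show _ ≤ max 0 (min 1 ((1 + ε) * pstar n))
    apply le_max_of_le_right
    apply le_min (by linarith) le_rfl)
  have hB : Tendsto (fun n : ℕ => pr (Fin n) (p n) (fun G => ¬ BreakerWinsFrom G k b ∅ ∅)) atTop
      (𝓝 0) := by
    apply breaker_whp hk hb (c := 1 + 1 / (k:ℝ)) _ (const_ok k hk) p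
    · filter_upwards [hle2] with n h1
      show max 0 (min 1 ((1 + ε) * pstar n)) ≤ _
      apply max_le (hnn n)
      exact le_trans (min_le_right _ _) h1
    · have : (0:ℝ) ≤ 1 / (k:ℝ) := by positivity
      linarith
  have hM' : Tendsto (fun n : ℕ => pr (Fin n) (p n) (fun G => ¬ BreakerWinsFrom G k b ∅ ∅)) atTop
      (𝓝 1) := by
    refine Tendsto.congr ?_ hM
    intro n
    unfold pr
    congr 1
    ext G
    show MakerWinsFrom G k b ∅ ∅ ↔ ¬ BreakerWinsFrom G k b ∅ ∅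
    rw [breaker_iff_not_maker, not_not]
  exact zero_ne_one (tendsto_nhds_unique hB hM')

/-- **Negative answer.** For every `b ≥ 1` there is no `k₀` such that for all `k ≥ k₀` the `(1:b)`
vertex Maker-Breaker `K_k`-game on `G(n,p)` has a sharp threshold at `n^{-2/k}`. In fact, for every
`k ≥ 10`, Breaker wins whp as soon as `p ≤ (1 + 1/k) n^{-2/k}`, and so no `p*` that is eventually at
most `(1 + 1/(2k)) n^{-2/k}` is a sharp threshold. -/
theorem result (b : ℕ) (hb : 1 ≤ b) :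
    (¬ ∃ k₀ : ℕ, ∀ k ≥ k₀, SharpThreshold b k (fun n => (n : ℝ) ^ (-(2:ℝ) / k))) ∧
    ∀ k : ℕ, 10 ≤ k →
      (∀ p : ℕ → I,
        (∀ᶠ n : ℕ in atTop, (p n : ℝ) ≤ (1 + 1 / (k:ℝ)) * (n : ℝ) ^ (-(2:ℝ) / k)) →
          Whp p (fun _ G => BreakerWins b k G)) ∧
      (∀ pstar : ℕ → ℝ,
        (∀ᶠ n : ℕ in atTop, pstar n ≤ (1 + 1 / (2 * (k:ℝ))) * (n : ℝ) ^ (-(2:ℝ) / k)) →
          ¬ SharpThreshold b k pstar) := by
  refine ⟨?_, fun k hk => ⟨fun p hp => breaker_wins hb hk p hp,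
    fun pstar hp => no_sharp hb hk pstar hp⟩⟩
  rintro ⟨k₀, h⟩
  refine no_sharp hb (le_max_right k₀ 10) _ ?_ (h (max k₀ 10) (le_max_left _ _))
  filter_upwards with n
  have h0 : (0:ℝ) ≤ (n : ℝ) ^ (-(2:ℝ) / (max k₀ 10 : ℕ)) := by positivity
  have h1 : (0:ℝ) ≤ 1 / (2 * ((max k₀ 10 : ℕ) : ℝ)) := by positivity
  nlinarith

end Pool.Agent.Results.MP_a33257_co.NoSharpThreshold
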